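import Pool.Agent.MP_b9875a_co.H45.DiveA

/-! Row DIVE: the dive into a set of small slack. -/

namespace Pool.Agent.MP_b9875a_co.H99.LN

open Finset

namespace Dv

variable {V : Type} [DecidableEq V]

theorem exists_inj {β : Type} (U : Finset ℕ) (L : Finset β) (b : β) (h : U.card ≤ L.card) :
    ∃ g : ℕ → β, (∀ p ∈ U, g p ∈ L) ∧ ∀ p ∈ U, ∀ p' ∈ U, g p = g p' → p = p' := by
  obtain ⟨f, hf⟩ := Function.Embedding.exists_of_card_le_finset (α := U) (s := L)
    (by simpa using h)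
  refine ⟨fun p => if hp : p ∈ U then f ⟨p, hp⟩ else b, fun p hp => ?_, fun p hp p' hp' e => ?_⟩
  · simp only [dif_pos hp]
    exact hf ⟨_, rfl⟩
  · simp only [dif_pos hp, dif_pos hp'] at e
    exact congrArg Subtype.val (f.injective e)

theorem targets {k m s : ℕ} {σ : St V} (G : Good k m s σ) :
    ∃ tg : ℕ → Option (ℕ × ℕ),
      (∀ p ∈ σ.Un, ∀ τ, tg p = some τ →
        τ ∈ σ.T ∧ τ.1 ∈ σ.Need ∧ ∀ τ' ∈ σ.B, τ'.1 ≠ τ.1) ∧
      (∀ p ∈ σ.Un, tg p = none → σ.dg ≠ none) ∧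
      ∀ p ∈ σ.Un, ∀ p' ∈ σ.Un, (tg p).map Prod.fst = (tg p').map Prod.fst → p = p' := by
  have hf : ∀ i ∈ σ.Need, ∃ τ ∈ σ.T, τ.1 = i := fun i hi => by
    have h1 := G.ndr i hi
    have h2 := G.tok i (by omega)
    have h3 := G.mk1
    rw [if_pos hi] at h2
    obtain ⟨τ, hτ⟩ := card_pos.1 (show 0 < cnt σ.T Prod.fst i by omega)
    exact ⟨τ, mem_filter.1 hτ⟩
  choose! f hfT hf1 using hf
  have hL : (σ.Need \ σ.B.image Prod.fst).card + dgn σ.dg = σ.Un.card := by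
    have h1 : σ.B.image Prod.fst ⊆ σ.Need := fun i hi => by
      obtain ⟨τ, hτ, rfl⟩ := mem_image.1 hi
      exact G.fl.lab τ hτ
    have h2 := card_sdiff_add_card_eq_card h1
    rw [card_image_of_injOn fun a ha b hb e => G.fl.inj a ha b hb e] at h2
    have h3 := G.fl.nd
    have h4 := G.fl.nb
    omega
  obtain ⟨L, hc, hs, hn⟩ : ∃ L : Finset (Option ℕ), σ.Un.card ≤ L.card ∧
      (∀ i, some i ∈ L → i ∈ σ.Need \ σ.B.image Prod.fst) ∧ (none ∈ L → σ.dg ≠ none) := by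
    rcases e : σ.dg with _ | a
    · refine ⟨(σ.Need \ σ.B.image Prod.fst).map Function.Embedding.some, ?_, fun i hi => ?_,
        fun h => ?_⟩
      · rw [e] at hL
        rw [card_map, ← hL]
        rfl
      · obtain ⟨j, hj, e⟩ := mem_map.1 hi
        exact Option.some.inj e ▸ hj
      · simp at h
    · refine ⟨insertNone (σ.Need \ σ.B.image Prod.fst), ?_, fun i hi => ?_, fun _ => by simp⟩
      · rw [e] at hL
        rw [card_insertNone, ← hL]
        rfl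
      · exact some_mem_insertNone.1 hi
  obtain ⟨g, hg, hi⟩ := exists_inj σ.Un L none hc
  have key : ∀ p ∈ σ.Un, ((g p).map f).map Prod.fst = g p := fun p hp => by
    rcases e : g p with _ | i
    · rfl
    · exact congrArg some (hf1 i (mem_sdiff.1 (hs i (e ▸ hg p hp))).1)
  refine ⟨fun p => (g p).map f, fun p hp τ e => ?_, fun p hp e => ?_, fun p hp p' hp' e => ?_⟩
  · obtain ⟨i, e1, rfl⟩ := Option.map_eq_some_iff.1 e
    have h1 := mem_sdiff.1 (hs i (e1 ▸ hg p hp))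
    refine ⟨hfT i h1.1, by rw [hf1 i h1.1]; exact h1.1, fun τ' hτ' e2 => h1.2 ?_⟩
    exact mem_image.2 ⟨τ', hτ', e2.trans (hf1 i h1.1)⟩
  · exact hn (Option.map_eq_none_iff.1 e ▸ hg p hp)
  · exact hi p hp p' hp' ((key p hp).symm.trans (e.trans (key p' hp')))

/-- new owner of a released arc -/
def own1 (a : V × V) : Option (ℕ ⊕ Option (ℕ × ℕ)) → Ob V
  | some (Sum.inl p) => Ob.peb p
  | some (Sum.inr (some τ)) => Ob.tok τ
  | _ => Ob.arc a

/-- new names of the obligations -/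
def rho (P : Finset (V × V)) (ow : V × V → Option (ℕ ⊕ Option (ℕ × ℕ))) (dn : Ob V) :
    Ob V → Ob V
  | Ob.arc a => if a ∈ P then own1 a (ow a) else Ob.arc a
  | Ob.dang => dn
  | o => o

/-- The state after the first step. -/
def s1 (σ : St V) (Z Al : Finset V) (B : Finset (ℕ × ℕ)) (bs : ℕ × ℕ → V) (Hj : Finset ℕ)
    (og : ℕ → V) (dg : Option (V × V)) : St V :=
  { σ with
    S := Z, D := σ.D.filter (fun a => a.1 ∈ Al ∧ σ.hd a ∈ Z), B := B, bs := bs,
    Un := σ.Un \ Hj, Ar := Hj, og := og, dg := dg }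

theorem step1 (hP : PDiveStmt) [Fintype V] {k m s : ℕ} {σ : St V} {c2 : V → ℕ} {Z Al : Finset V}
    (hk : 1 ≤ k) (G : Good k m s σ) (hc2 : ∀ v, c2 v + σ.acc v ≤ σ.c v)
    (hadm : Adm σ.S (2 * k + 1) (dem σ) c2 Prod.fst σ.hd σ.D) (hAZ : Al ⊆ Z) (hZ : Z ⊆ σ.S)
    (hbig : 2 * k + 1 ≤ Z.card) (hdg : ∀ x y, σ.dg = some (x, y) → x ∈ Z) :
    ∃ (σ1 : St V) (x : V → ℕ) (h : ℕ), Mid m σ σ1 Z Al x h ∧
      (∀ v ∈ Z, x v ≤ if v ∈ Al then ex Prod.fst σ.hd σ.D v Z else c2 v) ∧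
      ∑ v ∈ Z, x v ≤ ∑ v ∈ σ.S \ Z, dem σ v := by
  obtain ⟨tg, ht1, ht2, ht3⟩ := targets G
  obtain ⟨a0, b0, TT, hT1, hT2, hab⟩ : ∃ (a0 b0 : V) (TT : Finset (Option (ℕ × ℕ))),
      eraseNone TT = σ.T \ σ.B ∧ (none ∈ TT ↔ σ.dg ≠ none) ∧
      (σ.dg ≠ none → σ.dg = some (a0, b0)) := by
    rcases e : σ.dg with _ | ⟨a, b⟩
    · exact ⟨σ.z 0, σ.z 0, (σ.T \ σ.B).map Function.Embedding.some, eraseNone_map_some _,
        by simp, fun h => (h rfl).elim⟩
    · exact ⟨a, b, insertNone (σ.T \ σ.B), eraseNone_insertNone _, by simp, fun _ => rfl⟩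
  have hTs : ∀ τ, some τ ∈ TT ↔ τ ∈ σ.T \ σ.B := fun τ => by rw [← hT1, mem_eraseNone]
  have hcnt : cnt TT (fun o => o.elim a0 σ.bs) = dem σ := by
    funext v
    rw [cnt_opt, hT1]
    unfold dem
    congr 1
    by_cases e : σ.dg = none
    · rw [if_neg fun h => hT2.1 h.1 e, e]
      rfl
    · rw [hab e]
      simp [dga, hT2.2 e]
  have hposS : ∀ i ∈ TT, i.elim a0 σ.bs ∈ σ.S := fun i hi => by
    rcases i with _ | τ
    · exact (G.dgS a0 b0 (hab (hT2.1 hi))).1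
    · exact G.bsS τ (mem_sdiff.1 ((hTs τ).1 hi)).1
  have hinj : ∀ p ∈ σ.Un, ∀ p' ∈ σ.Un, tg p = tg p' → p = p' :=
    fun p hp p' hp' e => ht3 p hp p' hp' (by rw [e])
  have hnB : ∀ p ∈ σ.Un, ∀ τ, tg p = some τ → τ ∉ σ.B :=
    fun p hp τ e hb => (ht1 p hp τ e).2.2 τ hb rfl
  obtain ⟨ow, en, Hj, np, hHj, hpw, hen1, hen2, hnp, hx⟩ := hP V (V × V) (Option (ℕ × ℕ)) ℕ
    Prod.fst σ.hd σ.D σ.S Z Al c2 (2 * k + 1) TT (fun o => o.elim a0 σ.bs)
    (σ.Un.filter (fun p => σ.og p ∉ Al)) σ.og tg hAZ hZ hbig G.arcD hposS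
    (fun p hp => by
      obtain ⟨h1, h2⟩ := mem_filter.1 hp
      refine ⟨(G.ogU p h1).1, h2, ?_⟩
      rcases e : tg p with _ | τ
      · exact hT2.2 (ht2 p h1 e)
      · exact (hTs τ).2 (mem_sdiff.2 ⟨(ht1 p h1 τ e).1, hnB p h1 τ e⟩))
    (fun p hp p' hp' => hinj p (mem_filter.1 hp).1 p' (mem_filter.1 hp').1)
    (fun v hv hc X _ hX => by
      have h1 : 1 ≤ σ.c v := by
        rcases hc with h | ⟨p, hp, rfl⟩
        · have := hc2 v
          omega
        · exact (G.ogU p (mem_filter.1 hp).1).2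
      have h2 := rich G hk hv h1 X hX
      have h3 := card_filter_le σ.Un (fun p => σ.og p ∉ Al)
      have h4 := G.fl.nd
      have h5 := G.und v hv h1
      have h6 := hc2 v
      have h7 := G.cg v
      omega)
    (by rw [hcnt]; exact hadm)
  have hHU : Hj ⊆ σ.Un := hHj.trans (filter_subset _ _)
  set J : Finset (ℕ × ℕ) := eraseNone (Hj.image tg) with hJ
  have hJm : ∀ τ, τ ∈ J ↔ ∃ p ∈ Hj, tg p = some τ := fun τ => by
    rw [hJ, mem_eraseNone, mem_image]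
  have hBJ : Disjoint σ.B J := disjoint_left.2 fun τ h1 h2 => by
    obtain ⟨p, hp, e⟩ := (hJm τ).1 h2
    exact hnB p (hHU hp) τ e h1
  have hci : (Hj.image tg).card = Hj.card :=
    card_image_of_injOn fun p hp p' hp' e => hinj p (hHU hp) p' (hHU hp') e
  have hnd : none ∈ Hj.image tg → σ.dg = some (a0, b0) := fun h => by
    obtain ⟨p, hp, e⟩ := mem_image.1 h
    exact hab (ht2 p (hHU hp) e)
  set bs1 : ℕ × ℕ → V := fun τ => if τ ∈ σ.T ∧ τ ∉ σ.B ∪ J then np (some τ) else σ.bs τ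
    with hbs1
  set og1 : ℕ → V := fun p => if p ∈ σ.Un.filter (fun p => σ.og p ∉ Al) then
    (if p ∈ Hj ∧ tg p = none then b0 else en p) else σ.og p with hog1
  set dg1 : Option (V × V) := if none ∈ Hj.image tg then none else σ.dg with hdg1
  set x : V → ℕ := cnt (TT.filter (fun i => i ∉ Hj.image tg ∧ i.elim a0 σ.bs ∉ Z)) np with hxd
  have hbB : ∀ τ ∈ σ.B ∪ J, bs1 τ = σ.bs τ := fun τ hτ => if_neg fun h => h.2 hτ
  have hfree : ∀ τ ∈ σ.T, τ ∉ σ.B ∪ J → some τ ∈ TT ∧ some τ ∉ Hj.image tg ∧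
      bs1 τ = np (some τ) := fun τ h1 h2 =>
    ⟨(hTs τ).2 (mem_sdiff.2 ⟨h1, fun h => h2 (mem_union_left _ h)⟩),
      fun h => h2 (mem_union_right _ (mem_eraseNone.2 h)), if_pos ⟨h1, h2⟩⟩
  have hmove : ∀ U, U ⊆ σ.T → ∀ v, cnt U bs1 v ≤ cnt U σ.bs v + x v := fun U hU v => by
    refine le_trans (card_le_card (t := U.filter (fun τ => σ.bs τ = v) ∪ eraseNone
      ((TT.filter (fun i => i ∉ Hj.image tg ∧ i.elim a0 σ.bs ∉ Z)).filter (fun i => np i = v)))
      fun τ hτ => ?_) ((card_union_le _ _).trans (Nat.add_le_add_left (card_eraseNone_le _) _))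
    obtain ⟨h1, h2⟩ := mem_filter.1 hτ
    by_cases hb : τ ∈ σ.B ∪ J
    · exact mem_union_left _ (mem_filter.2 ⟨h1, (hbB τ hb).symm.trans h2⟩)
    · obtain ⟨h3, h4, h5⟩ := hfree τ (hU h1) hb
      by_cases hz : σ.bs τ ∈ Z
      · exact mem_union_left _ (mem_filter.2
          ⟨h1, ((hnp _ h3 h4).2.1 hz).symm.trans (h5.symm.trans h2)⟩)
      · exact mem_union_right _ (mem_eraseNone.2 (mem_filter.2
          ⟨mem_filter.2 ⟨h3, h4, hz⟩, h5.symm.trans h2⟩))
  have hogC : ∀ p ∈ σ.Cn, og1 p = σ.og p := fun p hp =>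
    if_neg fun h => disjoint_left.1 G.fl.d1 (mem_filter.1 h).1 hp
  have hogH : ∀ p ∈ Hj, og1 p = (tg p).elim b0 σ.bs := fun p hp => by
    rw [hog1]
    simp only [if_pos (hHj hp)]
    rcases e : tg p with _ | τ
    · rw [if_pos ⟨hp, rfl⟩]
      rfl
    · rw [if_neg (by simp), hen1 p hp, e]
      rfl
  have hfl : Fl (s1 σ Z Al (σ.B ∪ J) bs1 Hj og1 dg1) := by
    refine ⟨disjoint_of_subset_left (filter_subset _ _) G.fl.dj, fun τ hτ => ?_,
      fun τ hτ => ?_, fun τ hτ τ' hτ' e => ?_, disjoint_of_subset_left sdiff_subset G.fl.d1,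
      sdiff_disjoint, disjoint_of_subset_right hHU G.fl.d1.symm, ?_, ?_, fun v => ?_,
      fun v => ?_⟩
    all_goals simp only [s1] at *
    · rcases mem_union.1 hτ with h | h
      · exact G.fl.BT h
      · obtain ⟨p, hp, e⟩ := (hJm τ).1 h
        exact (ht1 p (hHU hp) τ e).1
    · rcases mem_union.1 hτ with h | h
      · exact G.fl.lab τ h
      · obtain ⟨p, hp, e⟩ := (hJm τ).1 h
        exact (ht1 p (hHU hp) τ e).2.1
    · rcases mem_union.1 hτ with h | h <;> rcases mem_union.1 hτ' with h' | h'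
      · exact G.fl.inj τ h τ' h' e
      · obtain ⟨p, hp, e'⟩ := (hJm τ').1 h'
        exact ((ht1 p (hHU hp) τ' e').2.2 τ h e).elim
      · obtain ⟨p, hp, e'⟩ := (hJm τ).1 h
        exact ((ht1 p (hHU hp) τ e').2.2 τ' h' e.symm).elim
      · obtain ⟨p, hp, e1⟩ := (hJm τ).1 h
        obtain ⟨p', hp', e2⟩ := (hJm τ').1 h'
        have := ht3 p (hHU hp) p' (hHU hp') (by rw [e1, e2]; exact congrArg some e)
        subst this
        exact Option.some.inj (e1.symm.trans e2)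
    · have h1 := G.fl.nd
      have h2 := card_sdiff_add_card_eq_card hHU
      rw [G.ar, card_empty] at h1
      omega
    · have h1 := G.fl.nb
      rw [G.ar, card_empty] at h1
      rw [card_union_of_disjoint hBJ]
      by_cases hn : none ∈ Hj.image tg
      · have h2 := card_eraseNone_of_mem hn
        have h3 := card_pos.2 ⟨_, hn⟩
        rw [hnd hn] at h1
        rw [hdg1, if_pos hn]
        simp only [dgn] at h1 ⊢
        rw [← hJ] at h2
        omega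
      · have h2 := card_eraseNone_of_not_mem hn
        rw [hdg1, if_neg hn]
        rw [← hJ] at h2
        omega
    · have h1 := G.fl.cin v
      have h2 : cnt σ.Ar σ.og v = 0 := by rw [G.ar]; rfl
      have h3 : cnt Hj og1 v = cnt J σ.bs v + if none ∈ Hj.image tg ∧ b0 = v then 1 else 0 := by
        rw [cnt_congr hogH, ← cnt_opt,
          cnt_image fun p hp p' hp' e => hinj p (hHU hp) p' (hHU hp') e]
      rw [cnt_congr hbB, cnt_union hBJ, h3]
      by_cases hn : none ∈ Hj.image tg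
      · rw [hnd hn] at h1
        rw [hdg1, if_pos hn]
        simp only [dgb, hn, true_and] at h1 ⊢
        omega
      · rw [hdg1, if_neg hn, if_neg fun h => hn h.1]
        omega
    · rw [cnt_congr hogC]
      exact G.fl.cout v
  have hsim : Sim m σ m (s1 σ Z Al (σ.B ∪ J) bs1 Hj og1 dg1) := by
    obtain ⟨dn, hdn1, hdn2⟩ : ∃ dn : Ob V, (∀ p ∈ Hj, tg p = none → dn = Ob.peb p) ∧
        (none ∉ Hj.image tg → dn = Ob.dang) := by
      by_cases hn : none ∈ Hj.image tg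
      · obtain ⟨p, hp, e⟩ := mem_image.1 hn
        exact ⟨Ob.peb p, fun p' hp' e' =>
          congrArg Ob.peb (hinj p (hHU hp) p' (hHU hp') (e.trans e'.symm)), fun h => (h hn).elim⟩
      · exact ⟨Ob.dang, fun p hp e => (hn (mem_image.2 ⟨p, hp, e⟩)).elim, fun _ => rfl⟩
    have lift : ∀ (l : ℕ ⊕ Option (ℕ × ℕ)) (o : Ob V), (∀ a, own1 a (some l) = o) → ∀ a b,
        NR Prod.fst σ.hd (fun a => a ∈ σ.D ∧ (a.1 ∉ Al ∨ σ.hd a ∉ Z) ∧ ow a = some l) a b →
        Relation.ReflTransGen (fun a b => ∃ o', Req m σ o' a b ∧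
          rho (σ.D.filter (fun a => a.1 ∉ Al ∨ σ.hd a ∉ Z)) ow dn o' = o) a b := by
      intro l o ho a b h
      refine rtg_mono h ?_
      rintro _ _ ⟨e, ⟨h1, h2, h3⟩, rfl, rfl⟩
      refine ⟨Ob.arc e, ⟨Or.inl h1, rfl, rfl⟩, ?_⟩
      simp only [rho]
      rw [if_pos (mem_filter.2 ⟨h1, h2⟩), h3, ho]
    refine sim_of_rel m _ _ (rho (σ.D.filter (fun a => a.1 ∉ Al ∨ σ.hd a ∉ Z)) ow dn)
      fun o a b hr => ?_
    rcases o with e | τ | p | _ | ⟨j, i⟩
    · obtain ⟨h1, h2, h3⟩ := hr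
      refine .single ⟨Ob.arc e, ⟨h1.imp_left fun h => (mem_filter.1 h).1, h2, h3⟩, ?_⟩
      refine if_neg fun h => ?_
      obtain ⟨h4, h5⟩ := mem_filter.1 h
      rcases h1 with h1 | h1
      · have h6 := (mem_filter.1 h1).2
        exact h5.elim (fun h => h h6.1) fun h => h h6.2
      · exact disjoint_left.1 G.fl.dj h4 h1
    · obtain ⟨h1, h2, h3⟩ := hr
      have h4 : Relation.ReflTransGen (fun a b => ∃ o', Req m σ o' a b ∧
          rho (σ.D.filter (fun a => a.1 ∉ Al ∨ σ.hd a ∉ Z)) ow dn o' = Ob.tok τ) (σ.bs τ) b :=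
        .single ⟨Ob.tok τ, ⟨h1, rfl, h3⟩, rfl⟩
      by_cases hb : τ ∈ σ.B ∪ J
      · rw [h2.trans (hbB τ hb)]
        exact h4
      · obtain ⟨h5, h6, h7⟩ := hfree τ h1 hb
        rw [h2.trans h7]
        exact (lift _ _ (fun _ => rfl) _ _ (hnp _ h5 h6).2.2).trans h4
    · obtain ⟨h1, h2, h3⟩ := hr
      have h4 : Relation.ReflTransGen (fun a b => ∃ o', Req m σ o' a b ∧
          rho (σ.D.filter (fun a => a.1 ∉ Al ∨ σ.hd a ∉ Z)) ow dn o' = Ob.peb p) a (σ.og p) := by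
        refine .single ⟨Ob.peb p, ⟨?_, h2, rfl⟩, rfl⟩
        rcases h1 with h | h | h
        · exact Or.inl (mem_sdiff.1 h).1
        · exact Or.inr (Or.inl h)
        · exact Or.inl (hHU h)
      have h3' : b = og1 p := h3
      by_cases hp : p ∈ σ.Un.filter (fun p => σ.og p ∉ Al)
      · have h5 := h4.trans (lift _ _ (fun _ => rfl) _ _ (hpw p hp))
        by_cases hh : p ∈ Hj ∧ tg p = none
        · have h6 : b = b0 := h3'.trans ((if_pos hp).trans (if_pos hh))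
          rw [hen1 p hh.1, hh.2] at h5
          rw [h6]
          exact h5.tail ⟨Ob.dang, hnd (mem_image.2 ⟨p, hh⟩), hdn1 p hh.1 hh.2⟩
        · have h6 : b = en p := h3'.trans ((if_pos hp).trans (if_neg hh))
          rw [h6]
          exact h5
      · rw [h3'.trans (if_neg hp)]
        exact h4
    · have h1 : dg1 = some (a, b) := hr
      have hn : none ∉ Hj.image tg := fun h => by
        rw [hdg1, if_pos h] at h1
        cases h1
      rw [hdg1, if_neg hn] at h1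
      exact .single ⟨Ob.dang, h1, hdn2 hn⟩
    · exact .single ⟨Ob.done j i, hr, rfl⟩
  refine ⟨s1 σ Z Al (σ.B ∪ J) bs1 Hj og1 dg1, x, Hj.card,
    ⟨hfl, hsim, rfl, rfl, rfl, rfl, rfl, rfl, rfl, rfl, sdiff_subset,
      (card_sdiff_add_card_eq_card hHU).le, ?_, fun p hp => ?_, fun τ h1 h2 => ?_,
      fun a b h => ?_, fun v _ => hmove _ subset_rfl v, fun v _ => ?_⟩, hx, ?_⟩
  · refine le_trans (card_le_card (t := σ.B.filter (fun τ => σ.bs τ ∉ Z) ∪ J) fun τ hτ => ?_)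
      ((card_union_le _ _).trans (Nat.add_le_add_left ((card_eraseNone_le _).trans hci.le) _))
    obtain ⟨h1, h2⟩ := mem_filter.1 hτ
    rcases mem_union.1 h1 with h | h
    · exact mem_union_left _ (mem_filter.2 ⟨h, hbB τ h1 ▸ h2⟩)
    · exact mem_union_right _ h
  · obtain ⟨h1, h2⟩ := mem_sdiff.1 hp
    change og1 p ∈ Al
    by_cases hb : p ∈ σ.Un.filter (fun p => σ.og p ∉ Al)
    · rw [show og1 p = en p from (if_pos hb).trans (if_neg fun h => h2 h.1)]
      exact hen2 p hb h2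
    · rw [show og1 p = σ.og p from if_neg hb]
      by_contra h
      exact hb (mem_filter.2 ⟨h1, h⟩)
  · obtain ⟨h3, h4, h5⟩ := hfree τ h1 h2
    change bs1 τ ∈ Z
    rw [h5]
    exact (hnp _ h3 h4).1
  · have h1 : dg1 = some (a, b) := h
    rw [hdg1] at h1
    split_ifs at h1
    exact hdg a b h1
  · have h1 := hmove (σ.T \ (σ.B ∪ J)) sdiff_subset v
    have h2 := cnt_mono (sdiff_subset_sdiff (subset_refl σ.T)
      (subset_union_left (s₁ := σ.B) (s₂ := J))) σ.bs v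
    have h3 : dga dg1 v ≤ dga σ.dg v := by
      rw [hdg1]
      split_ifs
      · exact Nat.zero_le _
      · exact le_rfl
    change cnt (σ.T \ (σ.B ∪ J)) bs1 v + dga dg1 v ≤
      cnt (σ.T \ σ.B) σ.bs v + dga σ.dg v + x v
    omega
  · rw [← hcnt, sum_cnt, sum_cnt]
    refine card_le_card fun i hi => ?_
    obtain ⟨h1, h2⟩ := mem_filter.1 (mem_filter.1 hi).1
    exact mem_filter.2 ⟨h1, mem_sdiff.2 ⟨hposS i h1, h2.2⟩⟩

end Dv

open Dv in
theorem dive : PDiveStmt → ElimStmt → DiveStmt := by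
  intro hP hE V _ _ k m s σ c2 Z q hk G hsc hc2 hadm hZ hbig hq hY hsoft hhard hbe hdg
  obtain ⟨σ1, x, h, M, hx, hxs⟩ := step1 (Al := Z.filter (fun v =>
    ex Prod.fst σ.hd σ.D v Z < c2 v)) hP hk G hc2 hadm (filter_subset _ _) hZ hbig hdg
  obtain ⟨σ2, r, r2, du, F, hs, E⟩ := hE V m σ1 Z (Z.filter (fun v =>
    ex Prod.fst σ.hd σ.D v Z < c2 v)) (filter_subset _ _) M.fl M.dg
  obtain ⟨y, hy, hys⟩ := between Z x (fun v => min (c2 v) (ex Prod.fst σ.hd σ.D v Z))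
    (∑ v ∈ σ.S \ Z, dem σ v) (fun v hv => by
      have h1 := hx v hv
      simp only [mem_filter, hv, true_and] at h1
      split_ifs at h1 <;> omega) hxs (hadm Z hZ hbig)
  refine ⟨_, last G hsc (fun v => mem_filter) (fun v => rfl) hZ hbig hq hY hsoft hhard hbe hdg
    M F E hy hys, fun R hR => sim_s3 m σ2 _ _ _ _ R (hs R (M.sim R hR)), E.eS.trans M.eS,
    M.eH ▸ E.Hs, M.eN ▸ E.Ns, ?_⟩
  exact E.eUn ▸ M.Us

end Pool.Agent.MP_b9875a_co.H99.LN
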