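import Pool.Agent.MP_b9875a_co.H99.Spec2

/-! Row DIVE, first part: counting lemmas and the last step of the dive. -/

namespace Pool.Agent.MP_b9875a_co.H99.LN.Dv

open Finset

section basic

variable {V α : Type} [DecidableEq V]

theorem cnt_mono {T T' : Finset α} (h : T ⊆ T') (f : α → V) (v : V) : cnt T f v ≤ cnt T' f v :=
  card_le_card (filter_subset_filter _ h)

theorem cnt_congr {T : Finset α} {f g : α → V} (h : ∀ a ∈ T, f a = g a) (v : V) :
    cnt T f v = cnt T g v := by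
  unfold cnt
  congr 1
  exact filter_congr fun a ha => by rw [h a ha]

theorem cnt_le_card (T : Finset α) (f : α → V) (v : V) : cnt T f v ≤ T.card := card_filter_le _ _

theorem cnt_union [DecidableEq α] {T T' : Finset α} (h : Disjoint T T') (f : α → V) (v : V) :
    cnt (T ∪ T') f v = cnt T f v + cnt T' f v := by
  unfold cnt
  rw [filter_union, card_union_of_disjoint (disjoint_filter_filter h)]

theorem cnt_sdiff [DecidableEq α] {T B : Finset α} (h : B ⊆ T) (f : α → V) (v : V) :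
    cnt T f v = cnt (T \ B) f v + cnt B f v := by
  rw [← cnt_union sdiff_disjoint, sdiff_union_of_subset h]

theorem sum_cnt (T : Finset α) (f : α → V) (X : Finset V) :
    ∑ v ∈ X, cnt T f v = (T.filter (fun a => f a ∈ X)).card :=
  sum_card_fiberwise_eq_card_filter T X f

theorem cnt_zero {T : Finset α} {f : α → V} {v : V} (h : ∀ a ∈ T, f a ≠ v) : cnt T f v = 0 :=
  card_eq_zero.2 (filter_eq_empty_iff.2 h)

theorem cnt_image {β : Type} [DecidableEq β] {T : Finset α} {g : α → β}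
    (h : ∀ a ∈ T, ∀ a' ∈ T, g a = g a' → a = a') (f : β → V) (v : V) :
    cnt (T.image g) f v = cnt T (fun a => f (g a)) v := by
  unfold cnt
  rw [filter_image, card_image_of_injOn]
  intro a ha a' ha' e
  exact h a (mem_filter.1 ha).1 a' (mem_filter.1 ha').1 e

theorem cnt_opt [DecidableEq α] (s : Finset (Option α)) (b : V) (f : α → V) (v : V) :
    cnt s (fun o => o.elim b f) v =
      cnt (eraseNone s) f v + if none ∈ s ∧ b = v then 1 else 0 := by
  have e : eraseNone (s.filter (fun o => o.elim b f = v)) =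
      (eraseNone s).filter (fun a => f a = v) := by
    ext a
    simp [mem_eraseNone]
  unfold cnt
  beta_reduce
  rw [← e]
  split_ifs with h
  · have hm : none ∈ s.filter (fun o => o.elim b f = v) := mem_filter.2 ⟨h.1, h.2⟩
    have := card_pos.2 ⟨_, hm⟩
    rw [card_eraseNone_of_mem hm]
    omega
  · have hm : none ∉ s.filter (fun o => o.elim b f = v) := fun hm =>
      h ⟨(mem_filter.1 hm).1, (mem_filter.1 hm).2⟩
    rw [card_eraseNone_of_not_mem hm, add_zero]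

theorem between (Z : Finset V) (x φ : V → ℕ) (n : ℕ) (h : ∀ v ∈ Z, x v ≤ φ v)
    (h1 : ∑ v ∈ Z, x v ≤ n) (h2 : n ≤ ∑ v ∈ Z, φ v) :
    ∃ y : V → ℕ, (∀ v ∈ Z, x v ≤ y v ∧ y v ≤ φ v) ∧ ∑ v ∈ Z, y v = n := by
  induction Z using Finset.induction_on generalizing n with
  | empty => exact ⟨x, by simp, by simp at h2 ⊢; omega⟩
  | insert a Z ha ih =>
    rw [sum_insert ha] at h1 h2
    have h3 : ∑ v ∈ Z, x v ≤ ∑ v ∈ Z, φ v :=
      sum_le_sum fun v hv => h v (mem_insert_of_mem hv)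
    have h4 := h a (mem_insert_self _ _)
    obtain ⟨y, hy, hs⟩ := ih (n - max (x a) (n - ∑ v ∈ Z, φ v))
      (fun v hv => h v (mem_insert_of_mem hv)) (by omega) (by omega)
    refine ⟨fun v => if v = a then max (x a) (n - ∑ v ∈ Z, φ v) else y v, fun v hv => ?_, ?_⟩
    · by_cases e : v = a
      · subst e
        simp only [if_true]
        omega
      · simp only [e, if_false]
        exact hy v ((mem_insert.1 hv).resolve_left e)
    · rw [sum_insert ha, sum_congr rfl (g := y) fun v hv => if_neg (by rintro rfl; exact ha hv)]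
      simp only [if_true]
      change _ + ∑ v ∈ Z, y v = n
      omega

omit [DecidableEq V] in
theorem rtg_mono {r p : V → V → Prop} {a b : V} (h : Relation.ReflTransGen r a b)
    (hp : ∀ x y, r x y → p x y) : Relation.ReflTransGen p a b :=
  Relation.ReflTransGen.mono (fun x y => hp x y) a b h

end basic

variable {V : Type} [DecidableEq V]

theorem rich {k m s : ℕ} {σ : St V} (G : Good k m s σ) (hk : 1 ≤ k) {v : V} (hv : v ∈ σ.S)
    (hc : 1 ≤ σ.c v) (X : Finset V) (hX : X.card < 2 * k + 1) :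
    σ.c v + 6899 * k ≤ ex Prod.fst σ.hd σ.D v X := by
  have h1 := G.i1 v hv hc
  have h2 := G.fl.cout v
  have h3 := G.acc1 v
  have h4 := G.und v hv hc
  have h5 := G.fl.nd
  have h6 := cnt_le_card σ.Cn σ.og v
  have h7 : cnt σ.D Prod.fst v ≤ ex Prod.fst σ.hd σ.D v X +
      ((σ.D.filter (fun a => a.1 = v)).filter (fun a => σ.hd a ∈ X)).card := by
    refine le_trans (card_le_card ?_) (card_union_le _ _)
    intro a ha
    by_cases h : σ.hd a ∈ X
    · exact mem_union_right _ (mem_filter.2 ⟨ha, h⟩)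
    · exact mem_union_left _ (mem_filter.2 ⟨(mem_filter.1 ha).1, (mem_filter.1 ha).2, h⟩)
  have h8 : ∑ y ∈ X, cnt (σ.D.filter (fun a => a.1 = v)) σ.hd y ≤ X.card • 100 := by
    refine sum_le_card_nsmul _ _ _ fun y _ => le_trans (card_le_card ?_) (G.mult v y)
    intro a ha
    have h := mem_filter.1 ha
    exact mem_filter.2 ⟨mem_union_left _ (mem_filter.1 h.1).1, (mem_filter.1 h.1).2, h.2⟩
  rw [sum_cnt, smul_eq_mul] at h8
  omega

omit [DecidableEq V] in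
theorem sim_of_rel (m : ℕ) (σ σ' : St V) (ρ : Ob V → Ob V)
    (h : ∀ o x y, Req m σ' o x y →
      Relation.ReflTransGen (fun a b => ∃ o', Req m σ o' a b ∧ ρ o' = o) x y) :
    Sim m σ m σ' := by
  rintro E ⟨own, hown⟩
  refine ⟨fun a b => ρ (own a b), fun o x y hr => ?_⟩
  have := h o x y hr
  clear hr
  induction this with
  | refl => exact .refl
  | tail _ hb ih =>
    obtain ⟨o', h1, h2⟩ := hb
    exact ih.trans (rtg_mono (hown o' _ _ h1) fun a b hab => ⟨hab.1, (congrArg ρ hab.2).trans h2⟩)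

/-- What the first step of the dive does. -/
structure Mid (m : ℕ) (σ σ1 : St V) (Z Al : Finset V) (x : V → ℕ) (h : ℕ) : Prop where
  fl : Fl σ1
  sim : Sim m σ m σ1
  eS : σ1.S = Z
  eD : σ1.D = σ.D.filter (fun a => a.1 ∈ Al ∧ σ.hd a ∈ Z)
  eH : σ1.H = σ.H
  ehd : σ1.hd = σ.hd
  eacc : σ1.acc = σ.acc
  eT : σ1.T = σ.T
  eN : σ1.Need = σ.Need
  ez : σ1.z = σ.z
  Us : σ1.Un ⊆ σ.Un
  Uc : σ1.Un.card + h ≤ σ.Un.card
  Bo : (σ1.B.filter (fun τ => σ1.bs τ ∉ Z)).card ≤ (σ.B.filter (fun τ => σ.bs τ ∉ Z)).card + h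
  og : ∀ p ∈ σ1.Un, σ1.og p ∈ Al
  bs : ∀ τ ∈ σ.T, τ ∉ σ1.B → σ1.bs τ ∈ Z
  dg : ∀ a b, σ1.dg = some (a, b) → a ∈ Z
  tc : ∀ v ∈ Z, cnt σ.T σ1.bs v ≤ cnt σ.T σ.bs v + x v
  dm : ∀ v ∈ Z, dem σ1 v ≤ dem σ v + x v

theorem mult_fin {k m s : ℕ} {σ σ1 σ2 : St V} {Z Al : Finset V} {x r r2 du : V → ℕ} {h : ℕ}
    (G : Good k m s σ) (hsc : ¬ Sc σ) (M : Mid m σ σ1 Z Al x h) (F : Fl σ2)
    (E : El σ1 σ2 Z Al r r2 du) (a b : V) :
    ((σ2.D ∪ σ2.H).filter (fun e => e.1 = a ∧ σ2.hd e = b)).card ≤ 100 := by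
  have hD : ∀ e ∈ σ2.D, e ∈ σ.D ∧ σ2.hd e = σ.hd e := fun e he => by
    rw [E.eD, M.eD] at he
    have h1 := (mem_filter.1 he).1
    refine ⟨h1, ?_⟩
    rw [E.hdD e (by rw [M.eH]; exact disjoint_left.1 G.fl.dj h1), M.ehd]
  have hacc : ∀ v, σ2.acc v ≤ 100 := fun v => by
    have h1 := E.accle v
    have h2 := G.acc1 v
    rw [M.eacc] at h1
    omega
  by_cases hw : ∃ e ∈ σ2.H, e.1 = a ∧ σ2.hd e = b ∧ σ2.hd e ≠ σ.hd e
  · obtain ⟨e, he, ea, eb, hne⟩ := hw
    have hW : Wk σ a b := by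
      have := (E.pv e he).resolve_left (by rw [M.ehd]; exact hne)
      unfold Wk at this ⊢
      rw [M.eH, M.ehd, M.eacc, ea, eb] at this
      exact this
    have hs : ∀ f ∈ (σ2.D ∪ σ2.H).filter (fun e => e.1 = a ∧ σ2.hd e = b),
        f ∈ σ2.H ∧ f.1 = a ∧ σ2.hd f = b := fun f hf => by
      obtain ⟨h1, h2, h3⟩ := mem_filter.1 hf
      refine ⟨(mem_union.1 h1).resolve_left fun h4 => hsc ⟨f, (hD f h4).1, ?_⟩, h2, h3⟩
      rw [h2, ← (hD f h4).2, h3]
      exact hW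
    rcases E.fin e he with h0 | h0
    · have h1 := F.cout a
      have h2 := hacc a
      rw [ea] at h0
      refine le_trans (card_le_card fun f hf => ?_) (show cnt σ2.H Prod.fst a ≤ 100 by omega)
      exact mem_filter.2 ⟨(hs f hf).1, (hs f hf).2.1⟩
    · have h1 := F.cin b
      have h2 := hacc b
      rw [eb] at h0
      refine le_trans (card_le_card fun f hf => ?_) (show cnt σ2.H σ2.hd b ≤ 100 by omega)
      exact mem_filter.2 ⟨(hs f hf).1, (hs f hf).2.2⟩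
  · refine le_trans (card_le_card fun f hf => ?_) (G.mult a b)
    obtain ⟨h1, h2, h3⟩ := mem_filter.1 hf
    rcases mem_union.1 h1 with h4 | h4
    · exact mem_filter.2 ⟨mem_union_left _ (hD f h4).1, h2, (hD f h4).2.symm.trans h3⟩
    · refine mem_filter.2 ⟨mem_union_right _ (M.eH ▸ E.Hs h4), h2, ?_⟩
      by_contra h5
      exact hw ⟨f, h4, h2, h3, fun h6 => h5 (h6.symm.trans h3)⟩

/-- The state after the dive. -/
def s3 (σ2 : St V) (c mu be u : V → ℕ) : St V := { σ2 with c := c, mu := mu, be := be, u := u }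

omit [DecidableEq V] in
theorem sim_s3 (m : ℕ) (σ2 : St V) (c mu be u : V → ℕ) : Sim m σ2 m (s3 σ2 c mu be u) := by
  rintro E ⟨own, h⟩
  refine ⟨own, fun o x y hr => h o x y ?_⟩
  cases o <;> exact hr

theorem fl_s3 {σ2 : St V} (F : Fl σ2) (c mu be u : V → ℕ) : Fl (s3 σ2 c mu be u) :=
  ⟨F.dj, F.BT, F.lab, F.inj, F.d1, F.d2, F.d3, F.nd, F.nb, F.cin, F.cout⟩

theorem out_tok {k m s : ℕ} {σ : St V} (G : Good k m s σ) {Z : Finset V}
    (hdg : ∀ x y, σ.dg = some (x, y) → x ∈ Z) :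
    ∑ v ∈ σ.S \ Z, dem σ v + (σ.B.filter (fun τ => σ.bs τ ∉ Z)).card ≤ ∑ v ∈ σ.S \ Z, σ.mu v := by
  have h1 : (σ.B.filter (fun τ => σ.bs τ ∉ Z)).card ≤ ∑ v ∈ σ.S \ Z, cnt σ.B σ.bs v := by
    rw [sum_cnt]
    refine card_le_card fun τ hτ => ?_
    have h := mem_filter.1 hτ
    exact mem_filter.2 ⟨h.1, mem_sdiff.2 ⟨G.bsS τ (G.fl.BT h.1), h.2⟩⟩
  refine le_trans (Nat.add_le_add_left h1 _) ?_
  rw [← sum_add_distrib]
  refine sum_le_sum fun v hv => ?_
  have h2 := G.tmu v (mem_sdiff.1 hv).1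
  have h3 := cnt_sdiff G.fl.BT σ.bs v
  have h4 : dga σ.dg v = 0 := by
    rcases e : σ.dg with _ | ⟨a, b⟩
    · rfl
    · exact if_neg fun h => (mem_sdiff.1 hv).2 (by rw [← h]; exact hdg a b e)
  unfold dem
  omega

theorem ex_split {σ σ2 : St V} {Z Al : Finset V}
    (hD : ∀ e ∈ σ.D, e.1 ∈ Al → σ.hd e ∈ Z → e ∈ σ2.D ∧ σ2.hd e = σ.hd e) {v : V} (hv : v ∈ Al)
    (X : Finset V) : ex Prod.fst σ.hd σ.D v X ≤
      ex Prod.fst σ.hd σ.D v Z + ex Prod.fst σ2.hd σ2.D v X := by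
  refine le_trans (card_le_card fun e he => ?_) (card_union_le _ _)
  obtain ⟨h1, h2, h3⟩ := mem_filter.1 he
  by_cases h : σ.hd e ∈ Z
  · have h4 := hD e h1 (h2 ▸ hv) h
    exact mem_union_right _ (mem_filter.2 ⟨h4.1, h2, h4.2 ▸ h3⟩)
  · exact mem_union_left _ (mem_filter.2 ⟨h1, h2, h⟩)

theorem out_split {σ σ2 : St V} {Z Al : Finset V}
    (hD : ∀ e ∈ σ.D, e.1 ∈ Al → σ.hd e ∈ Z → e ∈ σ2.D ∧ σ2.hd e = σ.hd e) {v : V} (hv : v ∈ Al) :
    cnt σ.D Prod.fst v ≤ ex Prod.fst σ.hd σ.D v Z + cnt σ2.D Prod.fst v := by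
  refine le_trans (card_le_card fun e he => ?_) (card_union_le _ _)
  obtain ⟨h1, h2⟩ := mem_filter.1 he
  by_cases h : σ.hd e ∈ Z
  · exact mem_union_right _ (mem_filter.2 ⟨(hD e h1 (h2 ▸ hv) h).1, h2⟩)
  · exact mem_union_left _ (mem_filter.2 ⟨h1, h2, h⟩)

theorem last {k m s : ℕ} {σ σ1 σ2 : St V} {c2 : V → ℕ} {Z Al : Finset V} {q : ℕ}
    {x y r r2 du φ : V → ℕ} {h : ℕ} (G : Good k m s σ) (hsc : ¬ Sc σ)
    (hAl : ∀ v, v ∈ Al ↔ v ∈ Z ∧ ex Prod.fst σ.hd σ.D v Z < c2 v)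
    (hφ : ∀ v, φ v = min (c2 v) (ex Prod.fst σ.hd σ.D v Z))
    (hZ : Z ⊆ σ.S) (hbig : 2 * k + 1 ≤ Z.card)
    (hq : ∑ v ∈ Z, φ v ≤ ∑ v ∈ σ.S \ Z, dem σ v + q)
    (hY : ∀ Y, Y ⊆ Z → 2 * k + 1 ≤ Y.card →
      ∑ v ∈ σ.S \ Y, dem σ v + q ≤ mval c2 Prod.fst σ.hd σ.D Y)
    (hsoft : ∀ v ∈ Z, ex Prod.fst σ.hd σ.D v Z < c2 v → c2 v + σ.acc v = σ.c v)
    (hhard : ∀ v ∈ Z, 1 ≤ σ.c v → c2 v ≤ ex Prod.fst σ.hd σ.D v Z →
      100 * k + q ≤ σ.mu v + c2 v)
    (hbe : ∑ v ∈ Al, σ.be v + q ≤ 2000 * k) (hdg : ∀ x y, σ.dg = some (x, y) → x ∈ Z)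
    (M : Mid m σ σ1 Z Al x h) (F : Fl σ2) (E : El σ1 σ2 Z Al r r2 du)
    (hy : ∀ v ∈ Z, x v ≤ y v ∧ y v ≤ φ v) (hys : ∑ v ∈ Z, y v = ∑ v ∈ σ.S \ Z, dem σ v) :
    Good k m s (s3 σ2 (fun v => if v ∈ Al then σ.c v - ex Prod.fst σ.hd σ.D v Z - r v else 0)
      (fun v => σ.mu v + y v + r2 v + du v) (fun v => σ.be v + (φ v - y v))
      (fun v => σ.u v + du v)) := by
  have eS : σ2.S = Z := E.eS.trans M.eS
  have hAZ : Al ⊆ Z := fun v hv => ((hAl v).1 hv).1
  have hhd : ∀ e ∈ σ.D, σ2.hd e = σ.hd e := fun e he => by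
    rw [E.hdD e (by rw [M.eH]; exact disjoint_left.1 G.fl.dj he), M.ehd]
  have hD : ∀ e ∈ σ.D, e.1 ∈ Al → σ.hd e ∈ Z → e ∈ σ2.D ∧ σ2.hd e = σ.hd e :=
    fun e he h1 h2 => ⟨by rw [E.eD, M.eD]; exact mem_filter.2 ⟨he, h1, h2⟩, hhd e he⟩
  have hacc : ∀ v, σ2.acc v + r v ≤ σ.acc v := fun v => M.eacc ▸ E.accle v
  have hnu : ∑ v ∈ Z, (φ v - y v) ≤ q := by
    have : ∑ v ∈ Z, (φ v - y v) + ∑ v ∈ Z, y v = ∑ v ∈ Z, φ v := by
      rw [← sum_add_distrib]
      exact sum_congr rfl fun v hv => Nat.sub_add_cancel (hy v hv).2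
    omega
  have hnu1 : ∀ v ∈ Z, φ v - y v ≤ q := fun v hv =>
    (single_le_sum (f := fun v => φ v - y v) (fun _ _ => Nat.zero_le _) hv).trans hnu
  have hdu : ∑ v ∈ Z, du v + σ2.Need.card ≤ σ.Need.card := M.eN ▸ E.sd
  have hA : ∀ v ∈ Al, ex Prod.fst σ.hd σ.D v Z < c2 v ∧ c2 v + σ.acc v = σ.c v := fun v hv =>
    ⟨((hAl v).1 hv).2, hsoft v (hAZ hv) ((hAl v).1 hv).2⟩
  have hc1 : ∀ v ∈ Al, σ2.acc v + 1 ≤
      (if v ∈ Al then σ.c v - ex Prod.fst σ.hd σ.D v Z - r v else 0) := fun v hv => by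
    have h1 := hA v hv
    have h2 := hacc v
    rw [if_pos hv]
    omega
  have hc2 : ∀ v, 1 ≤ (if v ∈ Al then σ.c v - ex Prod.fst σ.hd σ.D v Z - r v else 0) →
      v ∈ Al := fun v hv => by
    by_contra hn
    rw [if_neg hn] at hv
    omega
  have hdem : ∀ v, dem σ2 v = dem σ1 v := fun v => by
    unfold dem
    rw [E.dga v, E.fr, cnt_congr fun τ hτ => E.bsf τ (mem_sdiff.1 hτ).2]
  have hmult := mult_fin G hsc M F E
  refine
    { fl := fl_s3 F _ _ _ _
      ar := E.ar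
      arcD := fun a ha => ?_
      arcH := fun a ha => ?_
      bsS := fun τ hτ => ?_
      ogU := fun p hp => ?_
      ogC := fun p hp => ?_
      dgS := fun a b hab => ?_
      acc1 := fun v => ?_
      acc2 := fun v => ?_
      cg := fun v => ?_
      i1 := fun v hv hc => ?_
      i2 := fun v hv hc => ?_
      dead := fun v hv hc => ?_
      tmu := fun v hv => ?_
      umu := fun v hv => ?_
      und := fun v hv hc => ?_
      smu := ?_
      sbe := ?_
      mult := hmult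
      tok := fun i hi => ?_
      tlab := fun τ hτ => G.tlab τ (M.eT ▸ E.Ts hτ)
      ndr := fun i hi => G.ndr i (M.eN ▸ E.Ns hi)
      adm := fun X hX hXc => ?_
      big := ?_
      zmu := fun i hi hz => ?_
      zinj := ?_
      mk1 := G.mk1
      sk := G.sk }
  all_goals simp only [s3, eS] at *
  · rw [E.eD, M.eD] at ha
    obtain ⟨h1, h2, h3⟩ := mem_filter.1 ha
    exact ⟨hAZ h2, hhd a h1 ▸ h3⟩
  · exact ⟨hAZ (E.Hin a ha).1, (E.Hin a ha).2⟩
  · by_cases hb : τ ∈ σ2.B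
    · exact E.Bin τ hb
    · have h1 : τ ∈ σ1.T \ σ1.B := E.fr ▸ mem_sdiff.2 ⟨hτ, hb⟩
      rw [E.bsf τ (mem_sdiff.1 h1).2]
      exact M.bs τ (M.eT ▸ (mem_sdiff.1 h1).1) (mem_sdiff.1 h1).2
  · rw [E.eUn] at hp
    have h1 : σ2.og p ∈ Al := by rw [E.ogU p hp]; exact M.og p hp
    exact ⟨hAZ h1, le_trans (Nat.le_add_left _ _) (hc1 _ h1)⟩
  · exact ⟨hAZ (E.Cin p hp), le_trans (Nat.le_add_left _ _) (hc1 _ (E.Cin p hp))⟩
  · exact E.dgin a b hab
  · have h1 := hacc v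
    have h2 := G.acc1 v
    omega
  · by_cases hv : v ∈ Al
    · exact le_trans (Nat.le_add_right _ _) (hc1 v hv)
    · have h1 := F.cout v
      have h2 : cnt σ2.H Prod.fst v = 0 := cnt_zero fun a ha e => hv (e ▸ (E.Hin a ha).1)
      omega
  · have := G.cg v
    split_ifs <;> omega
  · have hv' := hc2 v hc
    have h1 := hA v hv'
    have h2 := G.i1 v (hZ hv) (by omega)
    have h3 := out_split hD hv'
    have h4 := E.out v hv'
    have h5 := hacc v
    rw [M.eH] at h4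
    rw [if_pos hv']
    omega
  · have hv' := hc2 v hc
    have h1 := hA v hv'
    have h2 := G.i2 v (hZ hv) (by omega)
    have h3 := E.rr v
    have h4 := hy v hv
    have h5 := hacc v
    have h6 := hφ v
    rw [if_pos hv']
    omega
  · have hv' : v ∉ Al := fun hv' => by
      have := hc1 v hv'
      omega
    by_cases h0 : σ.c v = 0
    · have := G.dead v (hZ hv) h0
      omega
    · have h1 : c2 v ≤ ex Prod.fst σ.hd σ.D v Z := not_lt.1 fun h => hv' ((hAl v).2 ⟨hv, h⟩)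
      have h2 := hhard v hv (by omega) h1
      have h3 := hnu1 v hv
      have h4 := hφ v
      omega
  · have h1 := cnt_sdiff F.BT σ2.bs v
    have h2 := cnt_sdiff M.fl.BT σ1.bs v
    have h3 : cnt (σ2.T \ σ2.B) σ2.bs v = cnt (σ1.T \ σ1.B) σ1.bs v := by
      rw [E.fr, cnt_congr fun τ hτ => E.bsf τ (mem_sdiff.1 hτ).2]
    have h4 := E.Bc v hv
    have h5 := M.tc v hv
    have h6 := G.tmu v (hZ hv)
    have h7 := hy v hv
    rw [← M.eT] at h5
    rw [← M.eT] at h6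
    omega
  · have := G.umu v (hZ hv)
    omega
  · have hv' := hc2 v hc
    have h1 := hA v hv'
    have h2 := G.und v (hZ hv) (by omega)
    have h3 := single_le_sum (f := du) (fun _ _ => Nat.zero_le _) hv
    omega
  · have h1 := G.smu
    have h2 := out_tok G hdg
    have h3 := sum_sdiff (f := σ.mu) hZ
    have h4 := E.sr
    have h5 := M.Bo
    have h6 := M.Uc
    rw [sum_add_distrib, sum_add_distrib, sum_add_distrib, E.eUn]
    omega
  · have h1 : Z.filter (fun v => 1 ≤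
        (if v ∈ Al then σ.c v - ex Prod.fst σ.hd σ.D v Z - r v else 0)) ⊆ Al :=
      fun v hv => hc2 v (mem_filter.1 hv).2
    refine le_trans (sum_le_sum_of_subset h1) ?_
    have h2 := sum_le_sum_of_subset (f := fun v => φ v - y v) hAZ
    rw [sum_add_distrib]
    omega
  · have h1 := G.tok i hi
    have h2 := E.tk i
    rw [M.eT, M.eN] at h2
    omega
  · have h1 := hY X hX hXc
    have h2 : ∑ v ∈ σ.S \ X, dem σ v = ∑ v ∈ σ.S \ Z, dem σ v + ∑ v ∈ Z \ X, dem σ v := by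
      rw [← sum_union (disjoint_left.2 fun v h1 h2 => (mem_sdiff.1 h1).2 (mem_sdiff.1 h2).1),
        sdiff_union_sdiff_cancel hZ hX]
    have h3 := sum_sdiff (f := y) hX
    have h4 := sum_le_sum_of_subset (f := fun v => φ v - y v) hX
    have h5 : ∑ v ∈ Z \ X, dem σ2 v ≤ ∑ v ∈ Z \ X, dem σ v + ∑ v ∈ Z \ X, y v := by
      rw [← sum_add_distrib]
      refine sum_le_sum fun v hv => ?_
      have h6 := M.dm v (mem_sdiff.1 hv).1
      have h7 := hy v (mem_sdiff.1 hv).1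
      have h8 := hdem v
      omega
    have h6 : mval c2 Prod.fst σ.hd σ.D X ≤ mval (fun v =>
        (if v ∈ Al then σ.c v - ex Prod.fst σ.hd σ.D v Z - r v else 0) - σ2.acc v)
        Prod.fst σ2.hd σ2.D X + ∑ v ∈ X, (φ v - y v) + ∑ v ∈ X, y v := by
      unfold mval
      rw [← sum_add_distrib, ← sum_add_distrib]
      refine sum_le_sum fun v hv => ?_
      have h7 := hy v (hX hv)
      have h8 := hφ v
      by_cases hv' : v ∈ Al
      · have h9 := hA v hv'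
        have h10 := ex_split hD hv' X
        have h11 := hacc v
        simp only [if_pos hv']
        omega
      · have h9 : c2 v ≤ ex Prod.fst σ.hd σ.D v Z :=
          not_lt.1 fun h => hv' ((hAl v).2 ⟨hX hv, h⟩)
        omega
    have h7 : ∑ v ∈ Z \ X, dem σ2 v ≤ mval (fun v =>
        (if v ∈ Al then σ.c v - ex Prod.fst σ.hd σ.D v Z - r v else 0) - σ2.acc v)
        Prod.fst σ2.hd σ2.D X := by omega
    exact h7
  · exact hbig
  · rw [E.ez, M.ez] at hz ⊢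
    have := G.zmu i hi (hZ hz)
    omega
  · rw [E.ez, M.ez]
    exact G.zinj

end Pool.Agent.MP_b9875a_co.H99.LN.Dv
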